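import Pool.Agent.helper47.SPI.Spec
import Pool.Agent.helper82.Weil.M

/-!
# Row spi:PRM: moments of the correlations, any shift (copy of Pool/Agent/helper21/PY2/MOM.lean)
-/

set_option autoImplicit false

open Finset Pool.Agent.helper85.PG

namespace Pool.Agent.SPI

open Pool.Agent.helper82.Weil in
private theorem PRM_app_sum {F : Type*} [Field F] [Fintype F] {k : ℕ} (w : F) (x y : Fin k → F)
    (hpar : ∀ i j : Fin k, x i ≠ x j + w ∧ x i ≠ y j + w ∧ y i ≠ x j + w ∧ y i ≠ y j + w)
    (h : Nondeg x y) :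
    Nondeg (Fin.append x (fun i => y i + w)) (Fin.append y (fun i => x i + w)) := by
  obtain ⟨i₀, hi₀⟩ := h
  rcases i₀ with j | j
  · refine ⟨Sum.inl (Fin.castAdd k j), ?_⟩
    rintro (i | i) hi
    · simp only [Sum.elim_inl, Fin.append_left]
      induction i using Fin.addCases with
      | left i =>
        rw [Fin.append_left]
        have hne : i ≠ j := by
          rintro rfl
          exact hi rfl
        have := hi₀ (Sum.inl i) (by simpa using hne)
        simpa using this
      | right i =>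
        rw [Fin.append_right]
        exact fun h => (hpar j i).2.1 h.symm
    · simp only [Sum.elim_inl, Sum.elim_inr, Fin.append_left]
      induction i using Fin.addCases with
      | left i =>
        rw [Fin.append_left]
        have := hi₀ (Sum.inr i) (by simp)
        simpa using this
      | right i =>
        rw [Fin.append_right]
        exact fun h => (hpar j i).1 h.symm
  · refine ⟨Sum.inr (Fin.castAdd k j), ?_⟩
    rintro (i | i) hi
    · simp only [Sum.elim_inl, Sum.elim_inr, Fin.append_left]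
      induction i using Fin.addCases with
      | left i =>
        rw [Fin.append_left]
        have := hi₀ (Sum.inl i) (by simp)
        simpa using this
      | right i =>
        rw [Fin.append_right]
        exact fun h => (hpar j i).2.2.2 h.symm
    · simp only [Sum.elim_inr, Fin.append_left]
      induction i using Fin.addCases with
      | left i =>
        rw [Fin.append_left]
        have hne : i ≠ j := by
          rintro rfl
          exact hi rfl
        have := hi₀ (Sum.inr i) (by simpa using hne)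
        simpa using this
      | right i =>
        rw [Fin.append_right]
        exact fun h => (hpar j i).2.2.1 h.symm

open Pool.Agent.helper82.Weil in
private theorem PRM_gen {F : Type*} [Field F] [Fintype F] (χ : MulChar F ℂ) (hχ : χ ≠ 1) (k : ℕ)
    (w : F) (A : Finset F) (hpar : ∀ a ∈ A, ∀ b ∈ A, a ≠ b + w) :
    ∑ u : F, ‖∑ a ∈ A, χ (a + u) * (starRingEnd ℂ) (χ (a + w + u))‖ ^ (2 * k) ≤
      (k : ℝ) ^ (2 * k) * (A.card : ℝ) ^ k * (Fintype.card F : ℝ) +
        (A.card : ℝ) ^ (2 * k) * (4 * k * Real.sqrt (Fintype.card F)) := by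
  classical
  have h1 : ((∑ u : F, ‖∑ a ∈ A, χ (a + u) * (starRingEnd ℂ) (χ (a + w + u))‖ ^ (2 * k) : ℝ) : ℂ) =
      ∑ x ∈ Fintype.piFinset fun _ : Fin k => A, ∑ y ∈ Fintype.piFinset fun _ : Fin k => A,
        ZZ χ (Fin.append x (fun i => y i + w)) (Fin.append y (fun i => x i + w)) := by
    push_cast
    have h2 : ∀ u : F, ((‖∑ a ∈ A, χ (a + u) * (starRingEnd ℂ) (χ (a + w + u))‖ : ℝ) : ℂ) ^ (2 * k) =
        ∑ x ∈ Fintype.piFinset fun _ : Fin k => A, ∑ y ∈ Fintype.piFinset fun _ : Fin k => A,
          (∏ i : Fin (k + k), χ (Fin.append x (fun i => y i + w) i + u)) *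
            (starRingEnd ℂ) (∏ i : Fin (k + k), χ (Fin.append y (fun i => x i + w) i + u)) := by
      intro u
      rw [pow_mul, ← Complex.mul_conj', mul_pow, ← map_pow, Finset.sum_pow', map_sum,
        Finset.sum_mul_sum]
      refine Finset.sum_congr rfl fun x _ => Finset.sum_congr rfl fun y _ => ?_
      rw [Fin.prod_univ_add, Fin.prod_univ_add]
      simp only [Fin.append_left, Fin.append_right, Finset.prod_mul_distrib, map_mul, map_prod,
        Complex.conj_conj]
      ring
    simp_rw [h2]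
    rw [Finset.sum_comm]
    refine Finset.sum_congr rfl fun x _ => ?_
    rw [Finset.sum_comm]
    rfl
  have h3 : ∑ u : F, ‖∑ a ∈ A, χ (a + u) * (starRingEnd ℂ) (χ (a + w + u))‖ ^ (2 * k) =
      ‖((∑ u : F, ‖∑ a ∈ A, χ (a + u) * (starRingEnd ℂ) (χ (a + w + u))‖ ^ (2 * k) : ℝ) : ℂ)‖ := by
    rw [Complex.norm_real, Real.norm_eq_abs, abs_of_nonneg]
    exact Finset.sum_nonneg fun _ _ => by positivity
  rw [h3, h1]
  refine (norm_sum_le _ _).trans ?_
  refine (Finset.sum_le_sum fun x _ => norm_sum_le _ _).trans ?_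
  rw [← Finset.sum_product', ← Finset.sum_filter_not_add_sum_filter _
    (fun xy : (Fin k → F) × (Fin k → F) => Nondeg xy.1 xy.2)]
  refine add_le_add ?_ ?_
  · have h1 : ∀ xy ∈ ((Fintype.piFinset fun _ : Fin k => A) ×ˢ
        (Fintype.piFinset fun _ : Fin k => A)).filter (fun xy => ¬ Nondeg xy.1 xy.2),
        ‖ZZ χ (Fin.append xy.1 (fun i => xy.2 i + w)) (Fin.append xy.2 (fun i => xy.1 i + w))‖ ≤
          (Fintype.card F : ℝ) := by
      intro xy _
      exact ZZ_trivial χ _ _
    refine (Finset.sum_le_sum h1).trans ?_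
    rw [Finset.sum_const, nsmul_eq_mul]
    apply mul_le_mul_of_nonneg_right _ (by positivity)
    exact_mod_cast card_degenerate A
  · have h1 : ∀ xy ∈ ((Fintype.piFinset fun _ : Fin k => A) ×ˢ
        (Fintype.piFinset fun _ : Fin k => A)).filter (fun xy => Nondeg xy.1 xy.2),
        ‖ZZ χ (Fin.append xy.1 (fun i => xy.2 i + w)) (Fin.append xy.2 (fun i => xy.1 i + w))‖ ≤
          4 * k * Real.sqrt (Fintype.card F) := by
      intro xy hxy
      rw [Finset.mem_filter, Finset.mem_product, Fintype.mem_piFinset, Fintype.mem_piFinset] at hxy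
      obtain ⟨⟨hx, hy⟩, hn⟩ := hxy
      refine (ZZ_bound χ hχ _ _ (PRM_app_sum w xy.1 xy.2 (fun i j => ⟨hpar _ (hx i) _ (hx j),
        hpar _ (hx i) _ (hy j), hpar _ (hy i) _ (hx j), hpar _ (hy i) _ (hy j)⟩) hn)).trans ?_
      push_cast
      exact le_of_eq (by ring)
    refine (Finset.sum_le_sum h1).trans ?_
    rw [Finset.sum_const, nsmul_eq_mul]
    apply mul_le_mul_of_nonneg_right _ (by positivity)
    have h2 : (((Fintype.piFinset fun _ : Fin k => A) ×ˢ
        (Fintype.piFinset fun _ : Fin k => A)).filter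
        (fun xy : (Fin k → F) × (Fin k → F) => Nondeg xy.1 xy.2)).card ≤ A.card ^ (2 * k) := by
      refine (Finset.card_filter_le _ _).trans ?_
      rw [Finset.card_product, Fintype.card_piFinset]
      simp only [Finset.prod_const, Finset.card_univ, Fintype.card_fin]
      rw [← pow_add, two_mul]
    exact_mod_cast h2

/-- the three colours -/
private def PRM_col {p : ℕ} [Fact p.Prime] (u x : ZMod p) : Fin 3 :=
  if (x / u).val = p - 1 then 2 else if (x / u).val % 2 = 0 then 0 else 1

private theorem PRM_col_ne {p : ℕ} [hp : Fact p.Prime] (u x : ZMod p) (hu : u ≠ 0) :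
    PRM_col u (x + u) ≠ PRM_col u x := by
  have hp2 := hp.out.two_le
  have : NeZero p := ⟨by omega⟩
  have : Fact (1 < p) := ⟨by omega⟩
  have h1 : (x + u) / u = x / u + 1 := by field_simp
  have h2 : (x / u).val < p := ZMod.val_lt _
  unfold PRM_col
  rw [h1]
  by_cases h3 : (x / u).val = p - 1
  · have h4 : (x / u + 1).val = 0 := by
      rw [ZMod.val_add, ZMod.val_one, h3]
      have h5 : p - 1 + 1 = p := by omega
      rw [h5, Nat.mod_self]
    rw [h4, if_neg (by omega), if_pos rfl, if_pos h3]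
    decide
  · have h4 : (x / u + 1).val = (x / u).val + 1 := by
      rw [ZMod.val_add, ZMod.val_one, Nat.mod_eq_of_lt (by omega)]
    rw [h4, if_neg h3]
    by_cases h5 : (x / u).val + 1 = p - 1
    · rw [if_pos h5]
      split_ifs <;> decide
    · rw [if_neg h5]
      by_cases h6 : (x / u).val % 2 = 0
      · rw [if_pos h6, if_neg (by omega)]
        decide
      · rw [if_neg h6, if_pos (by omega)]
        decide

theorem PRM : PRM_stmt := by
  intro p hp χ hχ k V u hk hV hu
  classical
  set T : Finset (ZMod p) := (range V).image (fun v : ℕ => (v : ZMod p)) with hT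
  have hinj : Set.InjOn (fun v : ℕ => (v : ZMod p)) (range V : Finset ℕ) := by
    intro v hv w hw h
    rw [Finset.mem_coe, Finset.mem_range] at hv hw
    have := (ZMod.natCast_eq_natCast_iff' v w p).mp h
    rwa [Nat.mod_eq_of_lt (by omega), Nat.mod_eq_of_lt (by omega)] at this
  have hcard : T.card = V := by
    rw [hT, Finset.card_image_of_injOn hinj, Finset.card_range]
  set Tc : Fin 3 → Finset (ZMod p) := fun c => T.filter fun x => PRM_col u x = c with hTc
  set F : ZMod p → Fin 3 → ℂ := fun r c =>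
    ∑ a ∈ Tc c, χ (a + r) * (starRingEnd ℂ) (χ (a + u + r)) with hF
  have hsplit (r : ZMod p) : ∑ x ∈ range V, χ (r + (x : ZMod p)) *
      (starRingEnd ℂ) (χ (r + u + (x : ZMod p))) = ∑ c, F r c := by
    have h1 : ∑ x ∈ range V, χ (r + (x : ZMod p)) * (starRingEnd ℂ) (χ (r + u + (x : ZMod p))) =
        ∑ a ∈ T, χ (a + r) * (starRingEnd ℂ) (χ (a + u + r)) := by
      rw [hT, Finset.sum_image hinj]
      refine Finset.sum_congr rfl fun v _ => ?_
      rw [add_comm r, show r + u + (v : ZMod p) = (v : ZMod p) + u + r by ring]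
    rw [h1, hF, hTc]
    exact (Finset.sum_fiberwise T (fun x => PRM_col u x) _).symm
  have hgen (c : Fin 3) : ∑ r : ZMod p, ‖F r c‖ ^ (2 * k) ≤
      (k : ℝ) ^ (2 * k) * (V : ℝ) ^ k * p + (V : ℝ) ^ (2 * k) * (4 * k * Real.sqrt p) := by
    have h1 := PRM_gen χ hχ k u (Tc c) (by
      intro a ha b hb h
      rw [hTc, Finset.mem_filter] at ha hb
      have h2 := PRM_col_ne u b hu
      rw [← h, ha.2, hb.2] at h2
      exact h2 rfl)
    rw [ZMod.card] at h1
    have h2 : ((Tc c).card : ℝ) ≤ V := by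
      have h3 : (Tc c).card ≤ T.card := Finset.card_filter_le _ _
      rw [hcard] at h3
      exact_mod_cast h3
    refine h1.trans (add_le_add ?_ ?_)
    · gcongr
    · gcongr
  have hpt (r : ZMod p) : cr χ V r u ^ (2 * k) ≤ 3 ^ (2 * k - 1) * ∑ c, ‖F r c‖ ^ (2 * k) := by
    unfold cr
    rw [hsplit]
    have h1 : ‖∑ c, F r c‖ ≤ ∑ c, ‖F r c‖ := norm_sum_le _ _
    have h2 := pow_sum_div_card_le_sum_pow (s := (Finset.univ : Finset (Fin 3)))
      (f := fun c => ‖F r c‖) (fun c _ => norm_nonneg _) (2 * k - 1)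
    have h3 : 2 * k - 1 + 1 = 2 * k := by omega
    rw [h3, Finset.card_univ, Fintype.card_fin, div_le_iff₀ (by positivity)] at h2
    push_cast at h2
    refine (pow_le_pow_left₀ (norm_nonneg _) h1 (2 * k)).trans (h2.trans (le_of_eq ?_))
    ring
  calc ∑ r : ZMod p, cr χ V r u ^ (2 * k)
      ≤ ∑ r : ZMod p, 3 ^ (2 * k - 1) * ∑ c, ‖F r c‖ ^ (2 * k) :=
        Finset.sum_le_sum fun r _ => hpt r
    _ = 3 ^ (2 * k - 1) * ∑ c, ∑ r : ZMod p, ‖F r c‖ ^ (2 * k) := by
        rw [← Finset.mul_sum, Finset.sum_comm]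
    _ ≤ 3 ^ (2 * k - 1) * ∑ _c : Fin 3, ((k : ℝ) ^ (2 * k) * (V : ℝ) ^ k * p +
          (V : ℝ) ^ (2 * k) * (4 * k * Real.sqrt p)) :=
        mul_le_mul_of_nonneg_left (Finset.sum_le_sum fun c _ => hgen c) (by positivity)
    _ = 3 ^ (2 * k) * ((k : ℝ) ^ (2 * k) * (V : ℝ) ^ k * p +
          (V : ℝ) ^ (2 * k) * (4 * k * Real.sqrt p)) := by
        rw [Finset.sum_const, Finset.card_univ, Fintype.card_fin, nsmul_eq_mul, ← mul_assoc]
        congr 1
        have h3 : 2 * k = 2 * k - 1 + 1 := by omega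
        conv_rhs => rw [h3, pow_succ]
        push_cast
        ring

end Pool.Agent.SPI
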